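import Mathlib
import Pool.Agent.Helper51.BW.Spec2
import Pool.Agent.Helper94.BW.LOW1

/-!
# BW swarm, stage 2, part PROP1: input of the final argument, first type
-/

set_option autoImplicit false

open MeasureTheory Filter Topology

namespace Pool.Agent.Helper27.BW.PROP1

open Pool.Agent.Helper51.BW
open Pool.Agent.Helper94.BW.LOW1 (exists_pm meas_Th Th_eq)

/-- the good event of a path -/
def T1 {d : ℕ} (j k : ℕ) (S : ℕ → V d) : Prop :=
  IsCut S j ∧ IsCut S (j + k) ∧ ∀ s < j, S s ≠ S j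

/-- the local version of the good event -/
def T1L {d : ℕ} (L j k : ℕ) (S : ℕ → V d) : Prop :=
  (∀ s t, s ≤ j → j < t → j ≤ s + L → t ≤ j + L → S s ≠ S t) ∧
  (∀ s t, s ≤ j + k → j + k < t → j ≤ s + L → t ≤ j + L → S s ≠ S t) ∧
  ∀ s < j, j ≤ s + L → S s ≠ S j

theorem diff_eq {d : ℕ} {j L : ℕ} {S S' : ℕ → V d}
    (h : ∀ t, j ≤ t + L → t < j + L → S (t + 1) - S t = S' (t + 1) - S' t) (s n : ℕ)
    (hs : j ≤ s + L) (hn : s + n ≤ j + L) : S (s + n) - S s = S' (s + n) - S' s := by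
  induction n with
  | zero => simp
  | succ n ih =>
    have h1 := ih (by omega)
    have h2 := h (s + n) (by omega) (by omega)
    have e1 : S (s + (n + 1)) - S s = (S (s + n + 1) - S (s + n)) + (S (s + n) - S s) := by
      rw [← add_assoc]; abel
    have e2 : S' (s + (n + 1)) - S' s = (S' (s + n + 1) - S' (s + n)) + (S' (s + n) - S' s) := by
      rw [← add_assoc]; abel
    rw [e1, e2, h1, h2]

theorem ne_iff {d : ℕ} {j L : ℕ} {S S' : ℕ → V d}
    (h : ∀ t, j ≤ t + L → t < j + L → S (t + 1) - S t = S' (t + 1) - S' t) (s t : ℕ)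
    (hst : s ≤ t) (hs : j ≤ s + L) (ht : t ≤ j + L) : (S s ≠ S t) = (S' s ≠ S' t) := by
  obtain ⟨n, rfl⟩ := Nat.exists_eq_add_of_le hst
  have h1 := diff_eq h s n hs ht
  have h2 : (S s = S (s + n)) = (S' s = S' (s + n)) := by
    apply propext
    constructor
    · intro he
      rw [← he, sub_self] at h1
      exact (sub_eq_zero.1 h1.symm).symm
    · intro he
      rw [← he, sub_self] at h1
      exact (sub_eq_zero.1 h1).symm
  rw [ne_eq, ne_eq, h2]

theorem T1L_locDep {d : ℕ} (L j k : ℕ) : LocDep (d := d) j L (T1L L j k) := by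
  intro S S' h
  unfold T1L
  have key : ∀ s t, s ≤ t → j ≤ s + L → t ≤ j + L → ((S s ≠ S t) ↔ (S' s ≠ S' t)) :=
    fun s t h1 h2 h3 => by rw [ne_iff h s t h1 h2 h3]
  apply propext
  constructor
  · rintro ⟨h1, h2, h3⟩
    refine ⟨fun s t a1 a2 a3 a4 => (key s t (by omega) a3 a4).1 (h1 s t a1 a2 a3 a4),
      fun s t a1 a2 a3 a4 => (key s t (by omega) a3 a4).1 (h2 s t a1 a2 a3 a4),
      fun s a1 a2 => (key s j (by omega) a2 (by omega)).1 (h3 s a1 a2)⟩
  · rintro ⟨h1, h2, h3⟩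
    refine ⟨fun s t a1 a2 a3 a4 => (key s t (by omega) a3 a4).2 (h1 s t a1 a2 a3 a4),
      fun s t a1 a2 a3 a4 => (key s t (by omega) a3 a4).2 (h2 s t a1 a2 a3 a4),
      fun s a1 a2 => (key s j (by omega) a2 (by omega)).2 (h3 s a1 a2)⟩

theorem T1_loc {d : ℕ} (m : ℕ) : Loc (d := d) (Finset.Icc 1 m) T1 := by
  refine ⟨T1L, m, fun L j k _ _ => T1L_locDep L j k, ?_, ?_⟩
  · rintro L j k S _ _ ⟨h1, h2, h3⟩
    exact ⟨fun s t a1 a2 _ _ => h1 s t a1 a2, fun s t a1 a2 _ _ => h2 s t a1 a2,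
      fun s a1 _ => h3 s a1⟩
  · rintro L j k S hk hL _ ⟨h1, h2, h3⟩ hT
    rw [Finset.mem_Icc] at hk
    by_contra hcon
    push Not at hcon
    apply hT
    refine ⟨fun s t a1 a2 he => ?_, fun s t a1 a2 he => ?_, fun s a1 he => ?_⟩
    · by_cases hc : j ≤ s + L ∧ t ≤ j + L
      · exact h1 s t a1 a2 hc.1 hc.2 he
      · exact hcon s t (by omega) (by omega) (by omega) he
    · by_cases hc : j ≤ s + L ∧ t ≤ j + L
      · exact h2 s t a1 a2 hc.1 hc.2 he
      · exact hcon s t (by omega) (by omega) (by omega) he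
    · by_cases hc : j ≤ s + L
      · exact h3 s a1 hc he
      · exact hcon s j (by omega) (by omega) (by omega) he

/-! ### the level -/

/-- the weighted sum of the good events -/
noncomputable def GS {d : ℕ} (W : Finset ℕ) (h : Fin d → ℝ) (Th : ℕ → (ℕ → V d) → Prop) (j : ℕ)
    (S : ℕ → V d) : ℝ := ∑ k ∈ W, ind (Th k S) * Real.exp (ip h (S j - S (j + k)))

theorem GS_eq {d : ℕ} (W : Finset ℕ) (h : Fin d → ℝ) (Th : ℕ → (ℕ → V d) → Prop) (j : ℕ)
    (S : ℕ → V d) : GS W h Th j S = ∑ k ∈ KKs W Th S, Real.exp (ip h (S j - S (j + k))) := by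
  classical
  unfold GS KKs
  rw [Finset.sum_filter]
  refine Finset.sum_congr rfl fun k _ => ?_
  by_cases hk : Th k S
  · rw [ind_true hk, if_pos hk, one_mul]
  · rw [ind_false hk, if_neg hk, zero_mul]

/-- the level as a function of the sum -/
noncomputable def phi (κ x : ℝ) : ℝ := if 0 < x then (⌊κ * x⌋₊ : ℝ) + 1 else 0

theorem lvl_eq {d : ℕ} (W : Finset ℕ) (h : Fin d → ℝ) (κ : ℝ) (Th : ℕ → (ℕ → V d) → Prop) (j : ℕ)
    (S : ℕ → V d) : (lvl W h κ Th j S : ℝ) = phi κ (GS W h Th j S) := by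
  unfold lvl phi
  rw [GS_eq]
  by_cases hne : (KKs W Th S).Nonempty
  · rw [if_pos hne, if_pos (Finset.sum_pos (fun k _ => Real.exp_pos _) hne)]
    push_cast
    rfl
  · rw [if_neg hne]
    rw [Finset.not_nonempty_iff_eq_empty] at hne
    rw [hne, Finset.sum_empty, if_neg (lt_irrefl _)]
    simp

theorem phi_meas (κ : ℝ) : Measurable (phi κ) := by
  unfold phi
  refine Measurable.ite measurableSet_Ioi ?_ measurable_const
  refine Measurable.add ?_ measurable_const
  exact (measurable_from_top (f := fun n : ℕ => (n : ℝ))).comp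
    (Nat.measurable_floor.comp (measurable_const.mul measurable_id))

theorem phi_ge {κ x : ℝ} (hx : 0 ≤ x) : κ * x ≤ phi κ x := by
  unfold phi
  split_ifs with h
  · exact (Nat.lt_floor_add_one _).le
  · have : x = 0 := le_antisymm (not_lt.1 h) hx
    rw [this, mul_zero]

theorem phi_le {κ x : ℝ} (hκ : 0 < κ) : phi κ x ≤ κ * |x| + 1 := by
  unfold phi
  split_ifs with h
  · have h1 : (⌊κ * x⌋₊ : ℝ) ≤ κ * x := Nat.floor_le (by positivity)
    rw [abs_of_pos h]
    linarith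
  · positivity

theorem phi_nonneg (κ x : ℝ) : 0 ≤ phi κ x := by
  unfold phi
  split_ifs with h
  · positivity
  · exact le_rfl

theorem GS_nonneg {d : ℕ} (W : Finset ℕ) (h : Fin d → ℝ) (Th : ℕ → (ℕ → V d) → Prop) (j : ℕ)
    (S : ℕ → V d) : 0 ≤ GS W h Th j S :=
  Finset.sum_nonneg fun k _ => mul_nonneg (ind_nonneg _) (Real.exp_pos _).le

/-- lower bound of the integral of the level -/
theorem lvl_int {d : ℕ} {Ω : Type} [MeasurableSpace Ω] (μ : Measure Ω) [IsProbabilityMeasure μ]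
    (X : ℕ → ℕ → Ω → V d) (hX : ∀ n, Measurable (X 0 n)) (W : Finset ℕ) (h : Fin d → ℝ) (κ : ℝ)
    (hκ : 0 < κ) (Th : ℕ → (ℕ → V d) → Prop) (j : ℕ)
    (hm : ∀ k ∈ W, MeasurableSet {ω | Th k (fun n => X 0 n ω)})
    (hI : ∀ k ∈ W, IntegrableOn (fun ω => Real.exp (ip h (X 0 j ω - X 0 (j + k) ω)))
      {ω | Th k (fun n => X 0 n ω)} μ) :
    κ * ∑ k ∈ W, ∫ ω in {ω | Th k (fun n => X 0 n ω)},
        Real.exp (ip h (X 0 j ω - X 0 (j + k) ω)) ∂μ ≤
      ∫ ω, (lvl W h κ Th j (fun n => X 0 n ω) : ℝ) ∂μ := by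
  classical
  have hterm : ∀ k, (fun ω => ind (Th k (fun n => X 0 n ω)) *
      Real.exp (ip h (X 0 j ω - X 0 (j + k) ω))) =
      Set.indicator {ω | Th k (fun n => X 0 n ω)}
        (fun ω => Real.exp (ip h (X 0 j ω - X 0 (j + k) ω))) := by
    intro k
    ext ω
    by_cases hk : Th k (fun n => X 0 n ω)
    · rw [ind_true hk, one_mul, Set.indicator_of_mem (show ω ∈ {ω | Th k (fun n => X 0 n ω)} from hk)]
    · rw [ind_false hk, zero_mul,
        Set.indicator_of_notMem (show ω ∉ {ω | Th k (fun n => X 0 n ω)} from hk)]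
  have hint : ∀ k ∈ W, Integrable (fun ω => ind (Th k (fun n => X 0 n ω)) *
      Real.exp (ip h (X 0 j ω - X 0 (j + k) ω))) μ := by
    intro k hk
    rw [hterm]
    exact (integrable_indicator_iff (hm k hk)).2 (hI k hk)
  have hG : Integrable (fun ω => GS W h Th j (fun n => X 0 n ω)) μ := by
    unfold GS
    exact integrable_finset_sum _ hint
  have hGi : ∫ ω, GS W h Th j (fun n => X 0 n ω) ∂μ = ∑ k ∈ W,
      ∫ ω in {ω | Th k (fun n => X 0 n ω)}, Real.exp (ip h (X 0 j ω - X 0 (j + k) ω)) ∂μ := by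
    unfold GS
    rw [integral_finset_sum _ hint]
    refine Finset.sum_congr rfl fun k hk => ?_
    rw [hterm, integral_indicator (hm k hk)]
  rw [← hGi, ← integral_const_mul]
  refine integral_mono (hG.const_mul κ) ?_ fun ω => ?_
  · simp only [lvl_eq]
    refine Integrable.mono' (g := fun ω => κ * |GS W h Th j (fun n => X 0 n ω)| + 1)
      ((hG.abs.const_mul κ).add (integrable_const 1)) ?_ (Filter.Eventually.of_forall fun ω => ?_)
    · exact (phi_meas κ).comp_aemeasurable hG.aemeasurable |>.aestronglyMeasurable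
    · rw [Real.norm_of_nonneg (phi_nonneg _ _)]
      exact phi_le hκ
  · simp only [lvl_eq]
    exact phi_ge (GS_nonneg _ _ _ _ _)

/-- PROP1 -/
theorem main (hT1 : S_TYPE1) (hHOR : S_HOR) (hQB1 : S_QB1) : S_PROP1 := by
  intro d Ω _ μ _ p X hp hp1 hX i hi hcrit hn η1 hη1 M
  obtain ⟨n, hn1, hn2⟩ := hn
  obtain ⟨c, hc, hT⟩ := hT1 d (p 0) (lhat (p i)) n (hp 0) (hp1 0) hcrit hn1 hn2
  obtain ⟨pm, hpm, hpm'⟩ := exists_pm p hp i
  set κ : ℝ := η1 * pm with hκ
  have hκ0 : 0 < κ := by positivity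
  set m : ℕ := ⌈M / (κ * c)⌉₊ with hm
  have hmM : M ≤ κ * (m * c) := by
    have h1 : M / (κ * c) ≤ m := Nat.le_ceil _
    rw [div_le_iff₀ (by positivity)] at h1
    nlinarith
  have hmeas : ∀ j k, MeasurableSet[sig0 X] {ω | T1 j k (fun n => X 0 n ω)} :=
    fun j k => meas_Th X j k
  have hsig : sig0 X ≤ ‹MeasurableSpace Ω› := iSup_le fun s => (hX.meas 0 s).comap_le
  refine ⟨κ, Finset.Icc 1 m, T1, 0, hκ0, fun k hk => (Finset.mem_Icc.1 hk).1,
    fun j k _ => hmeas j k, fun j k _ S hS => ⟨hS.2.1, hS.2.2⟩, T1_loc m, ?_, ?_⟩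
  · intro j _ N hN K' s E l hK' hK'ne hE hEω hl hl'
    have hK'1 : ∀ ω ∈ E, ∀ k ∈ K', T1 j k (fun n => X 0 n ω) := fun ω hω k hk =>
      ((hEω ω hω).2 k (hK' hk)).1 hk
    refine hQB1 d Ω μ p X hp hp1 hX i hi s j N K' pm η1 E l hpm hη1.le hpm' hE hK'ne ?_ ?_
      hl hl'
    · intro k hk
      exact ⟨(Finset.mem_Icc.1 (hK' hk)).1, hN k (hK' hk)⟩
    · intro ω hω
      obtain ⟨k0, hk0⟩ := hK'ne
      exact ⟨(hEω ω hω).1, (hK'1 ω hω k0 hk0).1, fun k hk => (hK'1 ω hω k hk).2.1⟩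
  · intro j _
    have hterm : ∀ k ∈ Finset.Icc 1 m, c ≤ ∫ ω in {ω | T1 j k (fun n => X 0 n ω)},
        Real.exp (ip (lhat (p i)) (X 0 j ω - X 0 (j + k) ω)) ∂μ := by
      intro k hk
      rw [Finset.mem_Icc] at hk
      have h1 := hHOR d Ω μ p X hp hp1 hX (fun T S => Q1 j k T S) (j + k)
        (fun S => Real.exp (ip (lhat (p i)) (S j - S (j + k))))
        (fun T S hQ => ⟨fun s t hs ht htT => hQ.1 s t hs ht (by omega),
          fun s t hs ht htT => hQ.2.1 s t hs ht (by omega), hQ.2.2⟩)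
        (fun T hTT S S' hSS hQ => by
          refine ⟨fun s t hs ht htT => ?_, fun s t hs ht htT => ?_, fun s hs => ?_⟩
          · rw [← hSS s (by omega), ← hSS t (by omega)]
            exact hQ.1 s t hs ht htT
          · rw [← hSS s (by omega), ← hSS t (by omega)]
            exact hQ.2.1 s t hs ht htT
          · rw [← hSS s (by omega), ← hSS j (by omega)]
            exact hQ.2.2 s hs)
        (fun S S' hSS => by
          change Real.exp _ = Real.exp _
          rw [hSS j (by omega), hSS (j + k) (by omega)])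
        (fun S => (Real.exp_pos _).le)
      rw [Th_eq] at h1
      refine ge_of_tendsto h1 ?_
      filter_upwards [eventually_ge_atTop (j + k)] with T hTT
      exact hT j k T hk.1 hTT
    have hint : ∀ k ∈ Finset.Icc 1 m,
        IntegrableOn (fun ω => Real.exp (ip (lhat (p i)) (X 0 j ω - X 0 (j + k) ω)))
          {ω | T1 j k (fun n => X 0 n ω)} μ := by
      intro k hk
      by_contra hcon
      have h1 := hterm k hk
      rw [integral_undef hcon] at h1
      linarith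
    refine le_trans ?_ (lvl_int μ X (fun n => hX.meas 0 n) (Finset.Icc 1 m) (lhat (p i)) κ hκ0
      (T1 j) j (fun k _ => hsig _ (hmeas j k)) hint)
    refine hmM.trans (mul_le_mul_of_nonneg_left ?_ hκ0.le)
    calc (m : ℝ) * c = ∑ _k ∈ Finset.Icc 1 m, c := by simp
      _ ≤ _ := Finset.sum_le_sum hterm

end Pool.Agent.Helper27.BW.PROP1
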